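import Pool.Agent.Y229.CF.Stm
import Pool.Agent.W977.ND.Nak

set_option autoImplicit false

/-! Project CF: generation over power series (TaskNAKP). -/

namespace Pool.Agent.Y256.CF

open MvPolynomial Pool.Agent.W425.ND Pool.Agent.Y229.CF Pool.Agent.W977.ND

section
variable {r N : ℕ} {R : Type} [CommRing R] {v : Fin r → Fin N → ℕ}

theorem hulP_of_hul {m : ℕ} {c : Fin N →₀ ℕ} (hc : Hul v m c) : HulP v m c := by
  obtain ⟨l, h1, h2, h3⟩ := hc
  exact ⟨l, h1, h2, fun i => (h3 i).le⟩

theorem hulP_add {m n : ℕ} {c d : Fin N →₀ ℕ} (hc : HulP v m c) (hd : HulP v n d) :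
    HulP v (m + n) (c + d) := by
  obtain ⟨l, h1, h2, h3⟩ := hc
  obtain ⟨l', h1', h2', h3'⟩ := hd
  refine ⟨fun j => l j + l' j, fun j => add_nonneg (h1 j) (h1' j), ?_, fun i => ?_⟩
  · rw [Finset.sum_add_distrib, h2, h2']
    push_cast
    ring
  · simp only [add_mul]
    rw [Finset.sum_add_distrib]
    have := add_le_add (h3 i) (h3' i)
    simpa using this

theorem supP_add {m : ℕ} {p q : MvPolynomial (Fin N) R} (hp : SupP v m p) (hq : SupP v m q) :
    SupP v m (p + q) := by
  intro c hc
  by_cases h : coeff c p = 0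
  · apply hq
    intro h'
    apply hc
    rw [coeff_add, h, h', add_zero]
  · exact hp c h

theorem supP_zero (m : ℕ) : SupP v m (0 : MvPolynomial (Fin N) R) := by
  intro c hc
  exact absurd (coeff_zero c) hc

theorem supP_smul {m : ℕ} {p : MvPolynomial (Fin N) R} (t : R) (hp : SupP v m p) :
    SupP v m (t • p) := by
  intro c hc
  apply hp
  intro h
  apply hc
  rw [coeff_smul, h, smul_zero]

theorem supP_sum {ι : Type} {m : ℕ} (S : Finset ι) (p : ι → MvPolynomial (Fin N) R)
    (hp : ∀ i ∈ S, SupP v m (p i)) : SupP v m (∑ i ∈ S, p i) := by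
  classical
  induction S using Finset.induction_on with
  | empty =>
    rw [Finset.sum_empty]
    exact supP_zero m
  | insert a S ha ih =>
    rw [Finset.sum_insert ha]
    exact supP_add (hp a (Finset.mem_insert_self a S))
      (ih fun i hi => hp i (Finset.mem_insert_of_mem hi))

theorem supP_mul {m n : ℕ} {p q : MvPolynomial (Fin N) R} (hp : SupP v m p) (hq : SupP v n q) :
    SupP v (m + n) (p * q) := by
  classical
  intro c hc
  rw [coeff_mul] at hc
  obtain ⟨x, hx, hne⟩ := Finset.exists_ne_zero_of_sum_ne_zero hc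
  rw [Finset.HasAntidiagonal.mem_antidiagonal] at hx
  rw [← hx]
  exact hulP_add (hp _ (left_ne_zero_of_mul hne)) (hq _ (right_ne_zero_of_mul hne))

theorem supP_of_supH {m : ℕ} {p : MvPolynomial (Fin N) R} (hp : SupH v m p) : SupP v m p :=
  fun c hc => hulP_of_hul (hp c hc)

theorem supP_monomial {m : ℕ} {c : Fin N →₀ ℕ} (hc : HulP v m c) (t : R) :
    SupP v m (monomial c t) := by
  classical
  intro d hd
  rw [coeff_monomial] at hd
  split_ifs at hd with h
  · rwa [← h]
  · exact absurd rfl hd

theorem hulP_single_add {m : ℕ} {c : Fin N →₀ ℕ} (hc : HulP v m c) (i : Fin N) :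
    HulP v m (Finsupp.single i 1 + c) := by
  obtain ⟨l, h1, h2, h3⟩ := hc
  refine ⟨l, h1, h2, fun j => (h3 j).trans ?_⟩
  rw [Finsupp.add_apply]
  push_cast
  have : (0 : ℝ) ≤ ((Finsupp.single i 1 : Fin N →₀ ℕ) j : ℝ) := Nat.cast_nonneg _
  linarith

theorem supP_X_mul {m : ℕ} {p : MvPolynomial (Fin N) R} (hp : SupP v m p) (i : Fin N) :
    SupP v m (X i * p) := by
  classical
  intro c hc
  rw [coeff_X_mul'] at hc
  split_ifs at hc with h
  · have h1 := hulP_single_add (hp _ hc) i
    have h2 : Finsupp.single i 1 + (c - Finsupp.single i 1) = c := by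
      rw [add_comm]
      apply tsub_add_cancel_of_le
      rw [Finsupp.single_le_iff]
      exact Nat.one_le_iff_ne_zero.2 (Finsupp.mem_support_iff.1 h)
    rwa [h2] at h1
  · exact absurd rfl hc

/-- the generated submodule -/
def JJ (v : Fin r → Fin N → ℕ) (f : MvPolynomial (Fin N) R) (m : ℕ) :
    Submodule R (MvPolynomial (Fin N) R) where
  carrier := {g | ∃ (p0 : MvPolynomial (Fin N) R) (p q : Fin N → MvPolynomial (Fin N) R),
      SupP v m p0 ∧ (∀ i, SupP v m (p i)) ∧ (∀ i, SupP v (m + 1) (q i)) ∧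
      g = p0 * f + ∑ i, p i * (X i * pderiv i f) + ∑ i, X i * q i}
  zero_mem' := ⟨0, fun _ => 0, fun _ => 0, supP_zero m, fun _ => supP_zero m,
    fun _ => supP_zero _, by simp⟩
  add_mem' := by
    rintro g g' ⟨p0, p, q, h0, h, hq, rfl⟩ ⟨p0', p', q', h0', h', hq', rfl⟩
    refine ⟨p0 + p0', fun i => p i + p' i, fun i => q i + q' i, supP_add h0 h0',
      fun i => supP_add (h i) (h' i), fun i => supP_add (hq i) (hq' i), ?_⟩
    simp only [add_mul, mul_add]
    rw [Finset.sum_add_distrib, Finset.sum_add_distrib]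
    ring
  smul_mem' := by
    rintro t g ⟨p0, p, q, h0, h, hq, rfl⟩
    refine ⟨t • p0, fun i => t • p i, fun i => t • q i, supP_smul t h0,
      fun i => supP_smul t (h i), fun i => supP_smul t (hq i), ?_⟩
    simp only [smul_mul_assoc, mul_smul_comm]
    rw [← Finset.smul_sum, ← Finset.smul_sum, ← smul_add, ← smul_add]

/-- the exponents which are not a variable times an exponent of the same degree -/
def Bs (v : Fin r → Fin N → ℕ) (m : ℕ) : Set (Fin N →₀ ℕ) :=
  {c | HulP v m c ∧ ∀ (i : Fin N) (c' : Fin N →₀ ℕ), c = Finsupp.single i 1 + c' → ¬ HulP v m c'}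

theorem bs_finite (v : Fin r → Fin N → ℕ) (m : ℕ) : (Bs v m).Finite := by
  classical
  apply (Set.finite_Icc (0 : Fin N →₀ ℕ)
    (Finsupp.equivFunOnFinite.symm fun i => m * ∑ j, v j i)).subset
  rintro c ⟨⟨l, h1, h2, h3⟩, hn⟩
  refine ⟨zero_le, fun i => ?_⟩
  by_contra hcon
  have hcon' : m * ∑ j, v j i < c i := by
    have := not_le.1 hcon
    simpa using this
  have hle : Finsupp.single i 1 ≤ c := by
    rw [Finsupp.single_le_iff]
    omega
  refine hn i (c - Finsupp.single i 1) (add_tsub_cancel_of_le hle).symm ⟨l, h1, h2, fun k => ?_⟩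
  by_cases hk : k = i
  · subst hk
    have h4 : ∑ j, l j * (v j k : ℝ) ≤ ((m * ∑ j, v j k : ℕ) : ℝ) := by
      push_cast
      rw [← h2, Finset.sum_mul]
      refine Finset.sum_le_sum fun j _ => ?_
      apply mul_le_mul_of_nonneg_left _ (h1 j)
      exact Finset.single_le_sum (f := fun j => (v j k : ℝ)) (fun _ _ => Nat.cast_nonneg _)
        (Finset.mem_univ j)
    refine h4.trans ?_
    have h5 : (c - (Finsupp.single k 1 : Fin N →₀ ℕ)) k = c k - 1 := by simp
    rw [h5]
    have h6 : m * ∑ j, v j k ≤ c k - 1 := by omega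
    exact_mod_cast h6
  · have h5 : (c - (Finsupp.single i 1 : Fin N →₀ ℕ)) k = c k := by
      simp [Ne.symm hk]
    rw [h5]
    exact h3 k

theorem mono_JJ {f : MvPolynomial (Fin N) R} {m : ℕ} {c : Fin N →₀ ℕ} (hc : HulP v (m + 1) c)
    (hn : c ∉ Bs v (m + 1)) (t : R) : monomial c t ∈ JJ v f m := by
  classical
  have : ∃ (i : Fin N) (c' : Fin N →₀ ℕ), c = Finsupp.single i 1 + c' ∧ HulP v (m + 1) c' := by
    by_contra hcon
    push Not at hcon
    exact hn ⟨hc, hcon⟩
  obtain ⟨i, c', rfl, hc'⟩ := this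
  refine ⟨0, fun _ => 0, fun k => if k = i then monomial c' t else 0, supP_zero m,
    fun _ => supP_zero m, fun k => ?_, ?_⟩
  · by_cases hk : k = i
    · simp only [hk, if_true]
      exact supP_monomial hc' t
    · simp only [hk, if_false]
      exact supP_zero _
  · simp only [zero_mul, Finset.sum_const_zero, zero_add, mul_ite, mul_zero,
      Finset.sum_ite_eq', Finset.mem_univ, if_true]
    rw [X, monomial_mul, one_mul]

end

theorem nakp : TaskNAKP := by
  classical
  intro r N v a K hgen a' ha' m hm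
  set f := spa v a with hf
  set f' := spa v a' with hf'
  -- reduction of `f'`
  have hmapf : map (PowerSeries.constantCoeff (R := ℂ)) f' = f := by
    rw [hf, hf', spa_eq, spa_eq, map_sum]
    refine Finset.sum_congr rfl fun j _ => ?_
    rw [map_monomial, ha']
  have hmapC : ∀ p : MvPolynomial (Fin N) ℂ,
      map (PowerSeries.constantCoeff (R := ℂ)) (map (PowerSeries.C (R := ℂ)) p) = p := by
    intro p
    rw [map_map]
    have : (PowerSeries.constantCoeff (R := ℂ)).comp (PowerSeries.C (R := ℂ)) = RingHom.id ℂ := by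
      ext x
      simp
    rw [this, map_id]
  have hsupC : ∀ (n : ℕ) (p : MvPolynomial (Fin N) ℂ), SupP v n p →
      SupP v n (map (PowerSeries.C (R := ℂ)) p) := by
    intro n p hp c hc
    apply hp
    intro h
    apply hc
    rw [coeff_map, h, map_zero]
  set F : Submodule (PowerSeries ℂ) (MvPolynomial (Fin N) (PowerSeries ℂ)) :=
    Submodule.span (PowerSeries ℂ) ((fun c => monomial c (1 : PowerSeries ℂ)) ''
      (Bs v (m + 1))) with hF
  have hFG : F.FG := Submodule.fg_span ((bs_finite v (m + 1)).image _)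
  set I : Ideal (PowerSeries ℂ) := Ideal.span {PowerSeries.X} with hI
  have hIJ : I ≤ Ideal.jacobson ⊥ := by
    rw [IsLocalRing.jacobson_eq_maximalIdeal ⊥ bot_ne_top, hI, Ideal.span_le]
    intro x hx
    rw [Set.mem_singleton_iff] at hx
    subst hx
    rw [SetLike.mem_coe, IsLocalRing.mem_maximalIdeal, mem_nonunits_iff,
      PowerSeries.isUnit_iff_constantCoeff]
    simp
  have hle : F ≤ JJ v f' m ⊔ I • F := by
    rw [hF, Submodule.span_le]
    rintro _ ⟨c, hc, rfl⟩
    obtain ⟨q0, q, u, hq0, hq, hu, heq⟩ := hgen m hm c hc.1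
    set g : MvPolynomial (Fin N) (PowerSeries ℂ) := map (PowerSeries.C (R := ℂ)) q0 * f' +
      ∑ i, map (PowerSeries.C (R := ℂ)) (q i) * (X i * pderiv i f') +
      ∑ i, X i * map (PowerSeries.C (R := ℂ)) (u i) with hg
    have hgG : g ∈ JJ v f' m := ⟨_, _, _, hsupC m q0 hq0, fun i => hsupC m (q i) (hq i),
      fun i => hsupC (m + 1) (u i) (hu i), rfl⟩
    have hgS : SupP v (m + 1) g := supP_add (supP_add
      (supP_mul (hsupC m q0 hq0) (supP_of_supH (supH_spa a')))
      (supP_sum _ _ fun i _ => supP_mul (hsupC m (q i) (hq i)) (supP_of_supH (supH_dspa a' i))))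
      (supP_sum _ _ fun i _ => supP_X_mul (hsupC (m + 1) (u i) (hu i)) i)
    set D : MvPolynomial (Fin N) (PowerSeries ℂ) := monomial c 1 - g with hD
    have hDS : SupP v (m + 1) D := by
      have e : D = monomial c 1 + (-1 : PowerSeries ℂ) • g := by
        rw [hD, neg_smul, one_smul, sub_eq_add_neg]
      rw [e]
      exact supP_add (supP_monomial hc.1 _) (supP_smul _ hgS)
    have hDc : ∀ d, PowerSeries.constantCoeff (coeff d D) = 0 := by
      intro d
      have h0 : map (PowerSeries.constantCoeff (R := ℂ)) D = 0 := by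
        rw [hD, hg, map_sub, map_add, map_add, map_mul, map_sum, map_sum, hmapf, hmapC,
          map_monomial, map_one, heq, sub_eq_zero]
        congr 1
        · congr 1
          refine Finset.sum_congr rfl fun i _ => ?_
          rw [map_mul, map_mul, hmapC, map_X, ← pderiv_map, hmapf]
        · refine Finset.sum_congr rfl fun i _ => ?_
          rw [map_mul, hmapC, map_X]
      rw [← coeff_map, h0, coeff_zero]
    have hDF : D ∈ JJ v f' m ⊔ I • F := by
      rw [D.as_sum]
      refine Submodule.sum_mem _ fun d hd => ?_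
      have h1 : coeff d D ≠ 0 := mem_support_iff.1 hd
      by_cases hB : d ∈ Bs v (m + 1)
      · apply Submodule.mem_sup_right
        have h2 : monomial d (coeff d D) = coeff d D • monomial d (1 : PowerSeries ℂ) := by
          rw [smul_monomial, smul_eq_mul, mul_one]
        rw [h2]
        apply Submodule.smul_mem_smul
        · rw [hI, Ideal.mem_span_singleton]
          exact PowerSeries.X_dvd_iff.2 (hDc d)
        · exact Submodule.subset_span ⟨d, hB, rfl⟩
      · exact Submodule.mem_sup_left (mono_JJ (hDS d h1) hB _)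
    have e : monomial c (1 : PowerSeries ℂ) = g + D := by
      rw [hD]
      ring
    show monomial c (1 : PowerSeries ℂ) ∈ JJ v f' m ⊔ I • F
    rw [e]
    exact Submodule.add_mem _ (Submodule.mem_sup_left hgG) hDF
  have hfin : F ≤ JJ v f' m := Submodule.le_of_le_smul_of_le_jacobson_bot hFG hIJ hle
  intro c hc
  by_cases hB : c ∈ Bs v (m + 1)
  · exact hfin (Submodule.subset_span ⟨c, hB, rfl⟩)
  · exact mono_JJ hc hB 1

end Pool.Agent.Y256.CF
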